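import Pool.Agent.Y522.NA.StmT

/-!
# Coordinate balls whose boundary misses a set of zero length (job TP-Ch of helper522)
-/

set_option autoImplicit false

open Set Filter Topology Metric Function MeasureTheory
open scoped Manifold ContDiff

noncomputable section

namespace Pool.Agent.Y927.TP

open Pool.Agent.Y522 Pool.Agent.Y522.TP

/-- a diffeomorphism from `ℝ^n` to a ball -/
theorem exists_ball {n : ℕ} (s : E n) {t : ℝ} (ht : 0 < t) :
    ∃ b : E n → E n, Injective b ∧ (∀ x, LD n b x) ∧ range b = ball s t := by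
  set Φ := OpenPartialHomeomorph.univBall s t with hΦ
  have hs : Φ.source = univ := OpenPartialHomeomorph.univBall_source s t
  have htg : Φ.target = ball s t := OpenPartialHomeomorph.univBall_target s ht
  refine ⟨Φ, ?_, ?_, ?_⟩
  · intro a b hab
    exact Φ.injOn (by rw [hs]; trivial) (by rw [hs]; trivial) hab
  · intro x
    refine ⟨{ toPartialEquiv := Φ.toPartialEquiv
              open_source := Φ.open_source
              open_target := Φ.open_target
              contMDiffOn_toFun := ?_
              contMDiffOn_invFun := ?_ }, ?_, fun _ _ => rfl⟩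
    · exact (contMDiff_iff_contDiff.2 OpenPartialHomeomorph.contDiff_univBall).contMDiffOn
    · have h1 : ContDiffOn ℝ ∞ Φ.symm (ball s t) := OpenPartialHomeomorph.contDiffOn_univBall_symm
      rw [← htg] at h1
      exact contMDiffOn_iff_contDiffOn.2 h1
    · change x ∈ Φ.source
      rw [hs]; trivial
  · have h1 := Φ.image_source_eq_target
    rw [hs, htg, image_univ] at h1
    exact h1

/-- inverse charts are local diffeomorphisms -/
theorem LD_chart_symm {n : ℕ} {Y : Type} [TopologicalSpace Y] [ChartedSpace (E n) Y]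
    [IsManifold (𝓡 n) ∞ Y] (y0 : Y) (z : E n) (hz : z ∈ (chartAt (E n) y0).target) :
    LD n ((chartAt (E n) y0).symm : E n → Y) z := by
  let Φ : PartialDiffeomorph (𝓡 n) (𝓡 n) (E n) Y ∞ :=
    { toPartialEquiv := (chartAt (E n) y0).symm.toPartialEquiv
      open_source := (chartAt (E n) y0).open_target
      open_target := (chartAt (E n) y0).open_source
      contMDiffOn_toFun := contMDiffOn_chart_symm
      contMDiffOn_invFun := contMDiffOn_chart }
  exact ⟨Φ, hz, fun _ _ => rfl⟩

theorem ch : StCh := by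
  intro m Y _ _ _ _ S hS hZ y
  set φ := chartAt (E (m + 1)) y with hφ
  have hyt : φ y ∈ φ.target := mem_chart_target (E (m + 1)) y
  obtain ⟨t, ht, hball⟩ := Metric.isOpen_iff.1 φ.open_target (φ y) hyt
  obtain ⟨b, hb1, hb2, hb3⟩ := exists_ball (φ y) ht
  have hbt : ∀ x, b x ∈ φ.target := by
    intro x
    apply hball
    rw [← hb3]
    exact mem_range_self x
  obtain ⟨z0, hz0⟩ : φ y ∈ range b := by
    rw [hb3]
    exact mem_ball_self ht
  set c0 : E (m + 1) → Y := fun x => φ.symm (b x) with hc0
  have hc0i : Injective c0 := by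
    intro x x' h
    exact hb1 (φ.symm.injOn (hbt x) (hbt x') h)
  have hc0L : ∀ x, LD (m + 1) c0 x := by
    intro x
    exact LD.comp_fun (g := φ.symm) (f := b) (LD_chart_symm y (b x) (hbt x)) (hb2 x)
  have hc0c : Continuous c0 := continuous_iff_continuousAt.2 fun x => (hc0L x).continuousAt
  have hc0z : c0 z0 = y := by
    change φ.symm (b z0) = y
    rw [hz0]
    exact φ.left_inv (mem_chart_source (E (m + 1)) y)
  have hH : μH[1] (c0 ⁻¹' S) = 0 := hZ c0 hc0i hc0L
  -- a good radius
  obtain ⟨ρ, hρ0, hρ⟩ : ∃ ρ : ℝ, 0 < ρ ∧ ∀ z, c0 z ∈ S → dist z z0 ≠ ρ := by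
    have hlip : LipschitzWith 1 (fun z : E (m + 1) => dist z z0) := LipschitzWith.dist_left z0
    have h1 : μH[1] ((fun z : E (m + 1) => dist z z0) '' (c0 ⁻¹' S)) = 0 := by
      have h2 := hlip.hausdorffMeasure_image_le (d := 1) zero_le_one (c0 ⁻¹' S)
      rw [hH, mul_zero] at h2
      exact le_antisymm h2 (zero_le)
    rw [hausdorffMeasure_real] at h1
    by_contra hcon
    push Not at hcon
    have h3 : Ioo (0 : ℝ) 1 ⊆ (fun z : E (m + 1) => dist z z0) '' (c0 ⁻¹' S) := by
      intro ρ hρ
      obtain ⟨z, hz1, hz2⟩ := hcon ρ hρ.1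
      exact ⟨z, hz1, hz2⟩
    have h4 := measure_mono_null h3 h1
    rw [Real.volume_Ioo] at h4
    norm_num at h4
  obtain ⟨b', hb'1, hb'2, hb'3⟩ := exists_ball z0 hρ0
  have hb'c : Continuous b' := continuous_iff_continuousAt.2 fun x => (hb'2 x).continuousAt
  have hemb : IsOpenEmbedding b' := by
    apply IsOpenEmbedding.of_continuous_injective_isOpenMap hb'c hb'1
    intro U hU
    exact isOpen_image_of_LD hU (fun x _ => hb'2 x)
  refine ⟨fun x => c0 (b' x), ?_, ?_, ?_, ?_⟩
  · intro x x' h
    exact hb'1 (hc0i h)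
  · intro x
    exact LD.comp_fun (g := c0) (f := b') (hc0L _) (hb'2 x)
  · obtain ⟨x, hx⟩ : z0 ∈ range b' := by
      rw [hb'3]
      exact mem_ball_self hρ0
    exact ⟨x, by simp only [hx, hc0z]⟩
  · have hK : IsCompact (c0 ⁻¹' S ∩ closedBall z0 ρ) :=
      (isCompact_closedBall z0 ρ).inter_left (hS.preimage hc0c)
    have hsub : c0 ⁻¹' S ∩ closedBall z0 ρ ⊆ range b' := by
      rintro z ⟨hz1, hz2⟩
      rw [hb'3, mem_ball]
      exact lt_of_le_of_ne (mem_closedBall.1 hz2) (hρ z hz1)
    have h1 := (hemb.isInducing.isCompact_preimage_iff hsub).2 hK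
    have h2 : (fun x => c0 (b' x)) ⁻¹' S = b' ⁻¹' (c0 ⁻¹' S ∩ closedBall z0 ρ) := by
      ext x
      constructor
      · intro hx
        refine ⟨hx, ?_⟩
        have h3 : b' x ∈ ball z0 ρ := by
          rw [← hb'3]
          exact mem_range_self x
        exact ball_subset_closedBall h3
      · intro hx
        exact hx.1
    rw [h2]
    exact h1

end Pool.Agent.Y927.TP
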